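import Mathlib
import Pool.Agent.H977.CP.Windows

set_option autoImplicit false

/-!
# Different prime divisors for the odd terms of a window of a trajectory

The analogue of Grimm's conjecture for trajectories of the 3x+1 map, for windows of length up to a
constant times `sqrt (log |x|)`.
-/

namespace Pool.Agent.Results.MP_edb5be_nt.DistinctPrimes

/-- The 3x+1 map on the integers. -/
def T (x : ℤ) : ℤ := if x % 2 = 0 then x / 2 else (3 * x + 1) / 2

theorem half_le (x : ℤ) (n : ℕ) : x.natAbs ≤ 2 ^ n * (T^[n] x).natAbs := by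
  induction n with
  | zero => simp
  | succ n ih =>
    rw [Function.iterate_succ_apply', pow_succ]
    have h : (T^[n] x).natAbs ≤ 2 * (T (T^[n] x)).natAbs := by
      unfold T
      split_ifs <;> omega
    calc x.natAbs ≤ 2 ^ n * (T^[n] x).natAbs := ih
      _ ≤ 2 ^ n * (2 * (T (T^[n] x)).natAbs) := Nat.mul_le_mul_left _ h
      _ = _ := by ring

/-- Let `x` be an integer and `L` such that `2 ^ L * 3 ^ (L (L + 1) / 2) < |x|`, or, more generally, such
that the odd ones of the numbers `x, T x, ..., T ^ L x` have absolute value more than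
`3 ^ (L (L + 1) / 2)`. Then one can choose for every odd number among `x, T x, ..., T ^ L x` a prime
divisor such that the chosen primes are different for different times. -/
theorem result (x : ℤ) (L : ℕ)
    (h : 2 ^ L * 3 ^ (L * (L + 1) / 2) < |x| ∨
      ∀ t ≤ L, T^[t] x % 2 = 1 → 3 ^ (L * (L + 1) / 2) < |T^[t] x|) :
    ∃ f : ℕ → ℕ, (∀ t ≤ L, T^[t] x % 2 = 1 → (f t).Prime ∧ (f t : ℤ) ∣ T^[t] x) ∧
      ∀ s ≤ L, ∀ t ≤ L, T^[s] x % 2 = 1 → T^[t] x % 2 = 1 → f s = f t → s = t := by
  refine Pool.Agent.H977.CP.window x L ?_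
  intro t ht ho
  rcases h with h | h
  · have h1 := half_le x t
    have h2 : 2 ^ L * 3 ^ (L * (L + 1) / 2) < x.natAbs := by
      rw [← Int.natCast_natAbs] at h
      exact_mod_cast h
    have h3 : 2 ^ t * (T^[t] x).natAbs ≤ 2 ^ L * (T^[t] x).natAbs :=
      Nat.mul_le_mul_right _ (Nat.pow_le_pow_right (by norm_num) ht)
    exact Nat.lt_of_mul_lt_mul_left (lt_of_lt_of_le h2 (h1.trans h3))
  · have h1 := h t ht ho
    rw [← Int.natCast_natAbs] at h1
    exact_mod_cast h1

end Pool.Agent.Results.MP_edb5be_nt.DistinctPrimes
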