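import Mathlib
import Pool.Agent.Helper53.CD.Main

/-!
# Elements with few digits in the cycles and trajectories of the 3x+1 map

Numbers with at most `k` nonzero digits in base `b`, or with at most `k` changes of digits, or whose
digits are periodic up to at most `k` changes (with a period which may grow like a constant times the
logarithm of the number), or quotients of sparse integers, are rare in the cycles and in the
trajectories of the `3x+1` map on the integers: two such odd elements of a trajectory, which are not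
more than a constant times `log |x|` steps apart, have a bounded number of odd elements between them.
So in a cycle with `p` elements of absolute values at least `m` there are at most `C p / log m` odd
elements of this kind, where `C` depends only on the base and on `k`; if the base is not a power of
two, this holds for all elements, odd or even (for the powers of two it does not, since halving does
not change the digits).

Method. From `2 ^ j T^j x = 3 ^ a x + φ` with `0 ≤ φ < 3 ^ j` and the sparse expansions of `x` and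
`T^j x`, there is a long gap common to both expansions, at which the relation splits, so that the upper
parts `X`, `Y` satisfy the exact relation `2 ^ j Y = 3 ^ a X`. The theorem on unit equations (a
consequence of the subspace theorem), with a bound which does not depend on `j` and `a`, now
bounds `a`.
-/

set_option autoImplicit false

namespace Pool.Agent.Results.MP_edb5be_nt.FewDigits

open Pool.Agent.Helper53.CD

/-- Let `b ≥ 2`, `k` and `H` be given; `Sparse b k H Q x` means that `x` is the quotient of two sums of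
at most `k` terms `c b ^ i` with `|c| ≤ H`, with a positive denominator `≤ Q`.
(1) There is `C` such that for all `x`, `j`, `Q` with `C (Q 3 ^ j) ^ C ≤ |x|` for which `x` and `T^j x` are
sparse, at most `C` of the `j` steps from `x` to `T^j x` are odd, and `j ≤ C` if `b` is not a power of 2.
(2) There is `C` such that for `2 ≤ m`, `Q ^ C ≤ m`, among any `n` consecutive elements of a trajectory,
all of absolute value at least `m`, at most `C (1 + n / log m)` are odd and sparse; and (3) among the
elements of a cycle with `p` elements, all of absolute value at least `m`, at most `C p / log m` are odd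
and sparse. If `b` is not a power of two, this holds for all elements, not only for the odd ones.
(4) Numbers with at most `k` nonzero digits in base `b`, and numbers of whose digits in base `b` at
most `k` differ from the digit `R` places before them, are sparse (`Q = 1` and `Q = b ^ R`).
(5) The special case of (3) for these numbers, all `R ≥ 1` with `b ^ R ≤ Q` taken together. -/
theorem result (b k H : ℕ) (hb : 2 ≤ b) :
    (∃ C : ℕ, ∀ (x : ℤ) (j Q : ℕ), ((C * (Q * 3 ^ j) ^ C : ℕ) : ℤ) ≤ |x| →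
      Sparse b k H Q x → Sparse b k H Q (T^[j] x) →
      odds x j ≤ C ∧ ((¬ ∃ r, b = 2 ^ r) → j ≤ C)) ∧
    (∃ C : ℕ,
      (∀ (x : ℤ) (n m Q : ℕ), 2 ≤ m → Q ^ C ≤ m → (∀ t < n, (m : ℤ) ≤ |T^[t] x|) →
        (Set.ncard {t | t < n ∧ T^[t] x % 2 = 1 ∧ Sparse b k H Q (T^[t] x)} : ℝ) ≤
          C * (1 + n / Real.log m) ∧
        ((¬ ∃ r, b = 2 ^ r) →
          (Set.ncard {t | t < n ∧ Sparse b k H Q (T^[t] x)} : ℝ) ≤ C * (1 + n / Real.log m))) ∧
      (∀ (x : ℤ) (p m Q : ℕ), 1 ≤ p → T^[p] x = x → 2 ≤ m → Q ^ C ≤ m →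
        (∀ t < p, (m : ℤ) ≤ |T^[t] x|) →
        (Set.ncard {t | t < p ∧ T^[t] x % 2 = 1 ∧ Sparse b k H Q (T^[t] x)} : ℝ) ≤
          C * (p / Real.log m) ∧
        ((¬ ∃ r, b = 2 ^ r) →
          (Set.ncard {t | t < p ∧ Sparse b k H Q (T^[t] x)} : ℝ) ≤ C * (p / Real.log m)))) ∧
    (∀ x : ℤ, FewDigits b k x → Sparse b (k + 1) b 1 x) ∧
    (∀ (x : ℤ) (R : ℕ), 1 ≤ R → FewChanges b R k x → Sparse b (2 * k + 2) b (b ^ R) x) ∧
    (∃ C : ℕ, ∀ (x : ℤ) (p m Q : ℕ), 1 ≤ p → T^[p] x = x → 2 ≤ m → 1 ≤ Q → Q ^ C ≤ m →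
      (∀ t < p, (m : ℤ) ≤ |T^[t] x|) →
      (Set.ncard {t | t < p ∧ T^[t] x % 2 = 1 ∧ (FewDigits b k (T^[t] x) ∨
        ∃ R, 1 ≤ R ∧ b ^ R ≤ Q ∧ FewChanges b R k (T^[t] x))} : ℝ) ≤ C * (p / Real.log m) ∧
      ((¬ ∃ r, b = 2 ^ r) → (Set.ncard {t | t < p ∧ (FewDigits b k (T^[t] x) ∨
        ∃ R, 1 ≤ R ∧ b ^ R ≤ Q ∧ FewChanges b R k (T^[t] x))} : ℝ) ≤ C * (p / Real.log m))) := by
  obtain ⟨C₀, hC₀, hpairs⟩ := pairs b k H hb
  obtain ⟨C₁, hC₁, hpairs₁⟩ := pairs b (2 * k + 2) b hb
  have hcyc := cycles_aux (fun Q x => Sparse b k H Q x) C₀ hC₀ (¬ ∃ r, b = 2 ^ r)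
    hpairs (fun _ _ h => h.one_le)
  have hcyc₁ := cycles_aux (fun Q x => Sparse b (2 * k + 2) b Q x) C₁ hC₁ (¬ ∃ r, b = 2 ^ r)
    hpairs₁ (fun _ _ h => h.one_le)
  refine ⟨⟨C₀, hpairs⟩, hcyc, fun x h => sparse_of_digits hb h,
    fun x R hR h => sparse_of_changes hb hR h, ?_⟩
  obtain ⟨C, _, hC⟩ := hcyc₁
  refine ⟨C, ?_⟩
  intro x p m Q hp hper hm hQ1 hQ hx
  have hsp : ∀ y : ℤ, (FewDigits b k y ∨ ∃ R, 1 ≤ R ∧ b ^ R ≤ Q ∧ FewChanges b R k y) →
      Sparse b (2 * k + 2) b Q y := by
    rintro y (h | ⟨R, hR, hRQ, h⟩)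
    · exact (sparse_of_digits hb h).mono (by omega) le_rfl hQ1
    · exact (sparse_of_changes hb hR h).mono le_rfl le_rfl hRQ
  obtain ⟨h1, h2⟩ := hC x p m Q hp hper hm hQ hx
  constructor
  · refine le_trans ?_ h1
    have hle : Set.ncard {t | t < p ∧ T^[t] x % 2 = 1 ∧ (FewDigits b k (T^[t] x) ∨
        ∃ R, 1 ≤ R ∧ b ^ R ≤ Q ∧ FewChanges b R k (T^[t] x))} ≤
        Set.ncard {t | t < p ∧ T^[t] x % 2 = 1 ∧ Sparse b (2 * k + 2) b Q (T^[t] x)} := by
      apply Set.ncard_le_ncard
      · rintro t ⟨g1, g2, g3⟩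
        exact ⟨g1, g2, hsp _ g3⟩
      · exact (Set.finite_lt_nat p).subset (fun t ht => ht.1)
    exact_mod_cast hle
  · intro hc
    refine le_trans ?_ (h2 hc)
    have hle : Set.ncard {t | t < p ∧ (FewDigits b k (T^[t] x) ∨
        ∃ R, 1 ≤ R ∧ b ^ R ≤ Q ∧ FewChanges b R k (T^[t] x))} ≤
        Set.ncard {t | t < p ∧ Sparse b (2 * k + 2) b Q (T^[t] x)} := by
      apply Set.ncard_le_ncard
      · rintro t ⟨g1, g3⟩
        exact ⟨g1, hsp _ g3⟩
      · exact (Set.finite_lt_nat p).subset (fun t ht => ht.1)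
    exact_mod_cast hle

end Pool.Agent.Results.MP_edb5be_nt.FewDigits
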