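import Mathlib
import Pool.Agent.H977.CP.Traj

set_option autoImplicit false

/-!
# Cycles of the 3x+1 map with few prime divisors

Let `S` be a finite set of primes with `s` elements. The cycles all of whose elements are products of
powers of `2` and of primes of `S` (up to sign) have together at most `4 * 3 ^ s` elements, and these are
smaller than `3 ^ (L (L + 3) / 2)` in absolute value for every `L` with `2 ^ L > 3 ^ s`. So a cycle
with `p` elements, the largest of absolute value `M`, has at least `log_3 (p / 4)` and at least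
`(0.85 - o(1)) sqrt (log M)` prime divisors `≥ 5`. The same method bounds the length of pieces of
arbitrary trajectories. With the known lower bounds for the length of an unknown cycle it follows
that the cycles with at most five prime divisors `≥ 5` are those of `1`, `-1` and `-5`.

Proof: for odd `x` the numbers `3 x` and `3 x + 1 = 2 T x` are consecutive, so that
`(6 x + 1) ^ 2 - D y ^ 2 = 1` where `D` has at most `2 * 3 ^ s` values and all prime divisors of `y`
divide `D`; by Størmer's lemma `|6 x + 1|` is determined by `D`, and so is `x`, including its sign.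
The bound for the size uses that odd terms `x`, `T ^ n x` of a trajectory have a greatest common
divisor of at most `3 ^ n`, and a theorem of Hall type, to find different prime divisors of the odd ones
of the last `L` terms before the largest one.
-/

namespace Pool.Agent.Results.MP_edb5be_nt.FewPrimeDivisors

/-- The 3x+1 map on the integers. -/
def T (x : ℤ) : ℤ := if x % 2 = 0 then x / 2 else (3 * x + 1) / 2

/-- `Z` is a cycle of `T`. -/
def IsCycle (Z : Finset ℤ) : Prop :=
  ∃ (x : ℤ) (p : ℕ), 1 ≤ p ∧ T^[p] x = x ∧ Z = (Finset.range p).image fun i => T^[i] x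

/-- All prime divisors `≥ 5` of `x` are in `S` (for finite `S` this implies `x ≠ 0`). -/
def PrimesIn (S : Finset ℕ) (x : ℤ) : Prop :=
  ∀ q : ℕ, q.Prime → 5 ≤ q → (q : ℤ) ∣ x → q ∈ S

lemma T_eq : T = Pool.Agent.H977.CP.T := rfl

lemma not_zero {S : Finset ℕ} {x : ℤ} (h : PrimesIn S x) : x ≠ 0 := by
  rintro rfl
  obtain ⟨q, hq1, hq2⟩ := Nat.exists_infinite_primes (5 + ∑ a ∈ S, a)
  have hq : q ∈ S := h q hq2 (by omega) (dvd_zero _)
  have := Finset.single_le_sum (f := fun a => a) (fun i _ => Nat.zero_le i) hq
  omega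

lemma cycle_one : IsCycle {1, 2} := ⟨1, 2, by norm_num, by decide, by decide⟩

lemma cycle_zero : IsCycle {0} := ⟨0, 1, by norm_num, by decide, by decide⟩

lemma cycle_neg_one : IsCycle {-1} := ⟨-1, 1, by norm_num, by decide, by decide⟩

lemma cycle_neg_five : IsCycle {-5, -7, -10} := ⟨-5, 3, by norm_num, by decide, by decide⟩

lemma cycle_neg_seventeen : IsCycle {-17, -25, -37, -55, -82, -41, -61, -91, -136, -68, -34} :=
  ⟨-17, 11, by norm_num, by decide, by decide⟩

lemma known_cases : ∀ x ∈ Pool.Agent.Y780.Cz.Known, x ∈ ({1, 2} : Finset ℤ) ∨ x ∈ ({0} : Finset ℤ) ∨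
    x ∈ ({-1} : Finset ℤ) ∨ x ∈ ({-5, -7, -10} : Finset ℤ) ∨
    x ∈ ({-17, -25, -37, -55, -82, -41, -61, -91, -136, -68, -34} : Finset ℤ) := by decide

/-- (1) If the first `n` terms of the trajectory of an integer `x` are different and all their prime
divisors `≥ 5` are in the finite set `S`, then `n ≤ 4 * 3 ^ |S| + 4 + log_2 |x|`.
(2) If `Z` is a finite union of cycles and all prime divisors `≥ 5` of its elements are in the finite
set `S`, then `Z` has at most `4 * 3 ^ |S|` elements, and all of them are of absolute value less than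
`3 ^ (L (L + 3) / 2)` for every `L` with `3 ^ |S| < 2 ^ L`.
(3) A finite set of integers is a cycle whose elements have altogether at most five prime divisors
`≥ 5` if and only if it is `{-1}`, `{1, 2}` or `{-5, -7, -10}`. -/
theorem result :
    (∀ (x : ℤ) (n : ℕ) (S : Finset ℕ), Set.InjOn (fun i => T^[i] x) (Set.Iio n) →
      (∀ i < n, PrimesIn S (T^[i] x)) → n ≤ 4 * 3 ^ S.card + 4 + Nat.log 2 x.natAbs) ∧
    (∀ (Z : Finset ℤ) (S : Finset ℕ), Z.image T = Z → (∀ z ∈ Z, PrimesIn S z) →
      Z.card ≤ 4 * 3 ^ S.card ∧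
      ∀ L : ℕ, 3 ^ S.card < 2 ^ L → ∀ z ∈ Z, |z| < 3 ^ (L * (L + 3) / 2)) ∧
    (∀ Z : Finset ℤ, (IsCycle Z ∧ ∃ S : Finset ℕ, S.card ≤ 5 ∧ ∀ z ∈ Z, PrimesIn S z) ↔
      Z = {-1} ∨ Z = {1, 2} ∨ Z = {-5, -7, -10}) := by
  refine ⟨?_, ?_, ?_⟩
  · intro x n S hinj hS
    rcases Nat.eq_zero_or_pos n with rfl | hn
    · exact Nat.zero_le _
    · exact Pool.Agent.H977.CP.traj x n S (not_zero (hS 0 hn)) hinj hS
  · intro Z S hZ hS
    have h0 : (0 : ℤ) ∉ Z := fun h => not_zero (hS 0 h) rfl
    refine ⟨Pool.Agent.H977.CP.union_card hZ h0 hS, fun L hL z hz => ?_⟩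
    have h1 := Pool.Agent.H977.CP.height hZ h0 hS hL z hz
    rw [← Int.natCast_natAbs]
    exact_mod_cast h1
  · intro Z
    constructor
    · rintro ⟨hZ, S, h5, hS⟩
      have hZ' : Pool.Agent.H547R3.IsCycle Z := hZ
      have h0 : (0 : ℤ) ∉ Z := fun h => not_zero (hS 0 h) rfl
      have hK := Pool.Agent.H977.CP.small_known (Pool.Agent.H977.CP.cycle_image hZ') h0 hS h5
      obtain ⟨x, hx⟩ := Finset.card_pos.1 hZ'.card_pos
      have key : ∀ Z' : Finset ℤ, IsCycle Z' → x ∈ Z' → Z = Z' :=
        fun Z' hc hm => hZ'.eq_of_mem hc hx hm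
      rcases known_cases x (hK x hx) with h | h | h | h | h
      · exact Or.inr (Or.inl (key _ cycle_one h))
      · rw [Finset.mem_singleton] at h
        exact absurd (h ▸ hx) h0
      · exact Or.inl (key _ cycle_neg_one h)
      · exact Or.inr (Or.inr (key _ cycle_neg_five h))
      · exfalso
        have hZ17 := key _ cycle_neg_seventeen h
        subst hZ17
        have hsub : ({5, 7, 11, 13, 17, 37} : Finset ℕ) ⊆ S := by
          intro q hq
          fin_cases hq
          · exact hS (-25) (by decide) 5 (by norm_num) (by norm_num) (by norm_num)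
          · exact hS (-91) (by decide) 7 (by norm_num) (by norm_num) (by norm_num)
          · exact hS (-55) (by decide) 11 (by norm_num) (by norm_num) (by norm_num)
          · exact hS (-91) (by decide) 13 (by norm_num) (by norm_num) (by norm_num)
          · exact hS (-17) (by decide) 17 (by norm_num) (by norm_num) (by norm_num)
          · exact hS (-37) (by decide) 37 (by norm_num) (by norm_num) (by norm_num)
        have := Finset.card_le_card hsub
        have h6 : ({5, 7, 11, 13, 17, 37} : Finset ℕ).card = 6 := by decide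
        omega
    · have key : ∀ Z : Finset ℤ, IsCycle Z → (∀ z ∈ Z, z ≠ 0 ∧ z.natAbs ≤ 10) →
          IsCycle Z ∧ ∃ S : Finset ℕ, S.card ≤ 5 ∧ ∀ z ∈ Z, PrimesIn S z := by
        intro Z hZ h
        refine ⟨hZ, {5, 7}, by decide, ?_⟩
        intro z hz q hq h5 hd
        obtain ⟨h1, h2⟩ := h z hz
        have h3 : q ≤ z.natAbs := Nat.le_of_dvd (by omega) (by rwa [← Int.natCast_dvd])
        have h4 : q ≤ 10 := by omega
        interval_cases q <;> revert hq <;> decide
      rintro (rfl | rfl | rfl)
      · exact key _ cycle_neg_one (by decide)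
      · exact key _ cycle_one (by decide)
      · exact key _ cycle_neg_five (by decide)

end Pool.Agent.Results.MP_edb5be_nt.FewPrimeDivisors
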