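import Mathlib
import Pool.Agent.H977.RK.Rank
import Pool.Agent.H977.CP.Traj

set_option autoImplicit false

/-!
# The multiplicative rank of the cycles of the 3x+1 map

The elements of a cycle with `p` elements, or more generally of a finite union of cycles with `p`
elements, generate a subgroup of the multiplicative group of the rational numbers whose rank `r`
satisfies `p ≤ 2 ^ (r + 1) * (r + 1)`, so that `r ≥ log_2 p - log_2 log_2 p - 1`. In particular they
have at least `log_2 p - log_2 log_2 p - 1` prime divisors, but the statement says more: it excludes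
multiplicative relations between the elements. The same holds for `p` different consecutive terms of any
trajectory, up to a term `log_2 |x|`. With the known lower bounds for the length of an unknown cycle
it follows that the elements of an unknown cycle generate a group of rank at least `7`.

Proof: for odd `x` the numbers `3 x` and `3 x + 1 = 2 T x` are consecutive, so that
`(6 x + 1) ^ 2 - 1 = 24 x T(x)`. If `H` is a group of rank `r` then the square-free part `D` of a
positive integer of a coset of `H` takes at most `2 ^ r` values. For given `D` the numbers `|6 x + 1|` are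
terms `X_n` of the sequence of solutions of `X ^ 2 - D Y ^ 2 = 1`, and the quotients of the corresponding
`Y_n` have their squares in `H`. By a theorem on primitive prime divisors (proved in
`Pool.Agent.H977.RK.Prim`) every `Y_n`, `n ≥ 2`, is divisible by a prime number which does not divide
`Y_1, …, Y_(n-1)`. So the quotients by the first of the numbers are multiplicatively independent, and
there are at most `r + 1` numbers for every `D`.
-/

namespace Pool.Agent.Results.MP_edb5be_nt.MultiplicativeRank

/-- The 3x+1 map on the integers. -/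
def T (x : ℤ) : ℤ := if x % 2 = 0 then x / 2 else (3 * x + 1) / 2

/-- `Z` is a cycle of `T`. -/
def IsCycle (Z : Finset ℤ) : Prop :=
  ∃ (x : ℤ) (p : ℕ), 1 ≤ p ∧ T^[p] x = x ∧ Z = (Finset.range p).image fun i => T^[i] x

/-- The rank of the subgroup of the multiplicative group of `ℚ` generated by the nonzero elements
of `Z`. -/
noncomputable def rank (Z : Finset ℤ) : ℕ :=
  Module.finrank ℤ (Additive (Subgroup.closure {u : ℚˣ | ∃ z ∈ Z, (u : ℚ) = z}))

open Pool.Agent.H977.CP (T_even T_odd oddT T_ne_zero weight cycle_image)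

lemma T_eq : T = Pool.Agent.H977.CP.T := rfl

lemma rank_eq : rank = Pool.Agent.H977.RK.rank := rfl

lemma odd_count (Z O : Finset ℤ) (hO : ∀ z ∈ O, z % 2 = 1 ∧ z ∈ Z ∧ T z ∈ Z) :
    O.card ≤ 2 ^ rank Z * (rank Z + 1) := by
  refine Pool.Agent.H977.RK.odd_count 3 (by norm_num) 1 (Or.inl rfl) Z O T ?_
  intro z hz
  obtain ⟨h1, h2, h3⟩ := hO z hz
  have h0 : z ≠ 0 := by omega
  exact ⟨h2, h3, h0, T_ne_zero h0, by rw [T_eq, T_odd h1]; norm_num⟩

lemma union_card {Z : Finset ℤ} (hZ : Z.image T = Z) (h0 : (0 : ℤ) ∉ Z) :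
    Z.card ≤ 2 ^ (rank Z + 1) * (rank Z + 1) := by
  have h1 := Pool.Agent.H977.CP.card_even_le hZ h0
  have h2 := Finset.card_filter_add_card_filter_not (s := Z) (fun z => z % 2 = 1)
  have h3 := odd_count Z (Z.filter (fun z => z % 2 = 1)) (by
    intro z hz
    rw [Finset.mem_filter] at hz
    exact ⟨hz.2, hz.1, Pool.Agent.H977.CP.closed_T hZ hz.1⟩)
  have h4 : 2 ^ (rank Z + 1) * (rank Z + 1) = 2 * (2 ^ rank Z * (rank Z + 1)) := by ring
  omega

lemma traj (x : ℤ) (n : ℕ) (h0 : x ≠ 0) (hinj : Set.InjOn (fun i => T^[i] x) (Set.Iio n)) :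
    n ≤ 2 ^ (rank ((Finset.range n).image fun i => T^[i] x) + 1) *
      (rank ((Finset.range n).image fun i => T^[i] x) + 1) + 2 + Nat.log 2 x.natAbs := by
  classical
  set Z := (Finset.range n).image fun i => T^[i] x with hZ
  have hodd : (oddT x n).card ≤ 2 ^ rank Z * (rank Z + 1) + 1 := by
    set J := (oddT x n).erase (n - 1) with hJ
    have h1 := Finset.pred_card_le_card_erase (s := oddT x n) (a := n - 1)
    rw [← hJ] at h1
    have hJm : ∀ t ∈ J, t + 1 < n ∧ T^[t] x % 2 = 1 := by
      intro t ht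
      rw [hJ, Finset.mem_erase] at ht
      obtain ⟨h1, h3⟩ := ht
      unfold oddT at h3
      rw [Finset.mem_filter, Finset.mem_range] at h3
      exact ⟨by omega, h3.2⟩
    have hJinj : Set.InjOn (fun t => T^[t] x) (J : Set ℕ) := by
      intro a ha b hb h
      apply hinj _ _ h
      · have := hJm a ha; show a < n; omega
      · have := hJm b hb; show b < n; omega
    have h5 := odd_count Z (J.image (fun t => T^[t] x)) (by
      intro z hz
      rw [Finset.mem_image] at hz
      obtain ⟨t, ht, rfl⟩ := hz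
      obtain ⟨h1, h2⟩ := hJm t ht
      refine ⟨h2, ?_, ?_⟩
      · exact Finset.mem_image.2 ⟨t, Finset.mem_range.2 (by omega), rfl⟩
      · exact Finset.mem_image.2 ⟨t + 1, Finset.mem_range.2 h1, Function.iterate_succ_apply' _ _ _⟩)
    rw [Finset.card_image_of_injOn hJinj] at h5
    omega
  have hne : ∀ i : ℕ, T^[i] x ≠ 0 := by
    intro i
    induction i with
    | zero => exact h0
    | succ i ih => rw [Function.iterate_succ_apply']; exact T_ne_zero ih
  have h1 := weight x n
  have h2 : 1 ≤ (Pool.Agent.H977.CP.T^[n] x).natAbs := by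
    have := hne n
    rw [T_eq] at this
    omega
  have h3 : x.natAbs < 2 ^ (Nat.log 2 x.natAbs + 1) := Nat.lt_pow_succ_log_self (by norm_num) _
  have h4 : 2 ^ n < 2 ^ (2 * (oddT x n).card + (Nat.log 2 x.natAbs + 1)) := by
    calc 2 ^ n = 2 ^ n * 1 := by ring
      _ ≤ 2 ^ n * (Pool.Agent.H977.CP.T^[n] x).natAbs := Nat.mul_le_mul_left _ h2
      _ ≤ 2 ^ (2 * (oddT x n).card) * x.natAbs := h1
      _ < 2 ^ (2 * (oddT x n).card) * 2 ^ (Nat.log 2 x.natAbs + 1) :=
          Nat.mul_lt_mul_of_pos_left h3 (by positivity)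
      _ = _ := by rw [← pow_add]
  have h5 := (Nat.pow_lt_pow_iff_right (by norm_num)).1 h4
  have h6 : 2 ^ (rank Z + 1) * (rank Z + 1) = 2 * (2 ^ rank Z * (rank Z + 1)) := by ring
  omega

lemma cycle_one : IsCycle {1, 2} := ⟨1, 2, by norm_num, by decide, by decide⟩

lemma cycle_zero : IsCycle {0} := ⟨0, 1, by norm_num, by decide, by decide⟩

lemma cycle_neg_one : IsCycle {-1} := ⟨-1, 1, by norm_num, by decide, by decide⟩

lemma cycle_neg_five : IsCycle {-5, -7, -10} := ⟨-5, 3, by norm_num, by decide, by decide⟩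

lemma cycle_neg_seventeen : IsCycle {-17, -25, -37, -55, -82, -41, -61, -91, -136, -68, -34} :=
  ⟨-17, 11, by norm_num, by decide, by decide⟩

lemma known_cases : ∀ x ∈ Pool.Agent.Y780.Cz.Known, x ∈ ({1, 2} : Finset ℤ) ∨ x ∈ ({0} : Finset ℤ) ∨
    x ∈ ({-1} : Finset ℤ) ∨ x ∈ ({-5, -7, -10} : Finset ℤ) ∨
    x ∈ ({-17, -25, -37, -55, -82, -41, -61, -91, -136, -68, -34} : Finset ℤ) := by decide

/-- (1) If the first `n` terms of the trajectory of an integer `x ≠ 0` are different and generate a
group of rank `r`, then `n ≤ 2 ^ (r + 1) * (r + 1) + 2 + log_2 |x|`.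
(2) A finite union of cycles of nonzero integers whose elements generate a group of rank `r` has
at most `2 ^ (r + 1) * (r + 1)` elements.
(3) A cycle whose nonzero elements generate a group of rank at most `6` is one of the five known
ones. -/
theorem result :
    (∀ (x : ℤ) (n : ℕ), x ≠ 0 → Set.InjOn (fun i => T^[i] x) (Set.Iio n) →
      n ≤ 2 ^ (rank ((Finset.range n).image fun i => T^[i] x) + 1) *
        (rank ((Finset.range n).image fun i => T^[i] x) + 1) + 2 + Nat.log 2 x.natAbs) ∧
    (∀ Z : Finset ℤ, Z.image T = Z → (0 : ℤ) ∉ Z → Z.card ≤ 2 ^ (rank Z + 1) * (rank Z + 1)) ∧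
    (∀ Z : Finset ℤ, IsCycle Z → rank Z ≤ 6 →
      Z = {1, 2} ∨ Z = {0} ∨ Z = {-1} ∨ Z = {-5, -7, -10} ∨
      Z = {-17, -25, -37, -55, -82, -41, -61, -91, -136, -68, -34}) := by
  refine ⟨fun x n h0 hinj => traj x n h0 hinj, fun Z hZ h0 => union_card hZ h0, ?_⟩
  intro Z hZ hr
  have hZ' : Pool.Agent.H547R3.IsCycle Z := hZ
  obtain ⟨x, hx⟩ := Finset.card_pos.1 hZ'.card_pos
  have hK : x ∈ Pool.Agent.Y780.Cz.Known := by
    by_contra hun
    have hZT := cycle_image hZ'
    have h0 : (0 : ℤ) ∉ Z := by
      intro h0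
      have h1 := hZ'.eq_of_mem cycle_zero h0 (Finset.mem_singleton_self _)
      rw [h1, Finset.mem_singleton] at hx
      rw [hx] at hun
      exact hun (by decide)
    obtain ⟨p, hp1, hp2, hp⟩ := Pool.Agent.H977.CP.periodic_le hZT hx
    have h1 := Pool.Agent.R343.LZ.unknown_long hp1 (x := x) (by exact hp) hun
    have h2 := union_card (show Z.image T = Z from hZT) h0
    have h3 : 2 ^ (rank Z + 1) * (rank Z + 1) ≤ 2 ^ (6 + 1) * (6 + 1) :=
      Nat.mul_le_mul (Nat.pow_le_pow_right (by norm_num) (by omega)) (by omega)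
    norm_num at h3
    omega
  have key : ∀ Z' : Finset ℤ, IsCycle Z' → x ∈ Z' → Z = Z' := fun Z' hc hm => hZ'.eq_of_mem hc hx hm
  rcases known_cases x hK with h | h | h | h | h
  · exact Or.inl (key _ cycle_one h)
  · exact Or.inr (Or.inl (key _ cycle_zero h))
  · exact Or.inr (Or.inr (Or.inl (key _ cycle_neg_one h)))
  · exact Or.inr (Or.inr (Or.inr (Or.inl (key _ cycle_neg_five h))))
  · exact Or.inr (Or.inr (Or.inr (Or.inr (key _ cycle_neg_seventeen h))))

end Pool.Agent.Results.MP_edb5be_nt.MultiplicativeRank
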